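import Pool.Agent.Helper57_C2.Stmts

/-!
# Row C2_CNF (problem MP_6a3f1a_al): Parseval's identity on a coset
-/

set_option autoImplicit false

namespace Pool.Agent.PP.C2.H86

open Finset Pool.Agent.PP.C2

/-- geometric sums of roots of unity -/
theorem geo_zero (N : ℕ) (η : ℂ) (h1 : η ^ N = 1) (h2 : η ≠ 1) : ∑ j ∈ range N, η ^ j = 0 := by
  rw [geom_sum_eq h2, h1, sub_self, zero_div]

theorem swap_sums {ι τ π : Type*} [Fintype ι] (T : Finset τ) (P : Finset π) (c : ι → π → ℂ)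
    (g : τ → π → ℂ) : ∑ x, ∑ t ∈ T, ∑ p ∈ P, c x p * g t p =
      ∑ p ∈ P, (∑ x, c x p) * ∑ t ∈ T, g t p := by
  have h1 : ∀ x, ∑ t ∈ T, ∑ p ∈ P, c x p * g t p = ∑ p ∈ P, c x p * ∑ t ∈ T, g t p := by
    intro x
    rw [Finset.sum_comm]
    exact Finset.sum_congr rfl fun p _ => (Finset.mul_sum _ _ _).symm
  rw [Finset.sum_congr rfl fun x _ => h1 x, Finset.sum_comm]
  exact Finset.sum_congr rfl fun p _ => (Finset.sum_mul _ _ _).symm

theorem diff_sums (N : ℕ) (u v : ℕ → ℂ) : ∑ s ∈ range N, ∑ s' ∈ range N,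
    (u s - u s') * (v s - v s') =
      2 * N * ∑ s ∈ range N, u s * v s - 2 * (∑ s ∈ range N, u s) * ∑ s ∈ range N, v s := by
  have h : ∀ s, ∑ s' ∈ range N, (u s - u s') * (v s - v s') = (N : ℂ) * (u s * v s) +
      (∑ s' ∈ range N, u s' * v s') - (u s * ∑ s' ∈ range N, v s') -
      ((∑ s' ∈ range N, u s') * v s) := by
    intro s
    have h1 : ∀ s', (u s - u s') * (v s - v s') = u s * v s + u s' * v s' - u s * v s' -
      u s' * v s := fun s' => by ring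
    have h2 : ∑ s' ∈ range N, u s * v s' = u s * ∑ s' ∈ range N, v s' :=
      (Finset.mul_sum _ _ _).symm
    have h3 : ∑ s' ∈ range N, u s' * v s = (∑ s' ∈ range N, u s') * v s :=
      (Finset.sum_mul _ _ _).symm
    rw [Finset.sum_congr rfl fun s' _ => h1 s', Finset.sum_sub_distrib, Finset.sum_sub_distrib,
      Finset.sum_add_distrib, Finset.sum_const, Finset.card_range, nsmul_eq_mul, h2, h3]
  rw [Finset.sum_congr rfl fun s _ => h s, Finset.sum_sub_distrib, Finset.sum_sub_distrib,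
    Finset.sum_add_distrib, ← Finset.mul_sum, ← Finset.mul_sum, ← Finset.sum_mul, Finset.sum_const,
    Finset.card_range, nsmul_eq_mul]
  ring

theorem card_cop (ℓ : ℕ) [hℓ : Fact ℓ.Prime] (n : ℕ) (hn : 1 ≤ n) :
    ((range (ℓ ^ n)).filter (fun j => j.Coprime ℓ)).card = ℓ ^ (n - 1) * (ℓ - 1) := by
  rw [← Nat.totient_prime_pow hℓ.out (by omega : 0 < n)]
  unfold Nat.totient
  congr 1
  apply Finset.filter_congr
  intro j _
  rw [Nat.coprime_pow_left_iff (by omega : 0 < n)]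
  exact Nat.coprime_comm

/-- **Row C2_CNF** -/
theorem cnf : CnfStmt := by
  intro ℓ hℓ n hn ζ hζ ι _ a A K hA hAA k hk
  obtain ⟨m, hm⟩ : ∃ m, m = ℓ ^ (n - 1) := ⟨_, rfl⟩
  obtain ⟨q, hq⟩ : ∃ q, q = ℓ ^ n := ⟨_, rfl⟩
  have hqm : q = m * ℓ := by
    rw [hq, hm, ← pow_succ, Nat.sub_add_cancel hn]
  have hℓ0 : 0 < ℓ := hℓ.out.pos
  have hℓ1 : 1 < ℓ := hℓ.out.one_lt
  have hm0 : 0 < m := by rw [hm]; exact pow_pos hℓ0 _
  have hq0 : 0 < q := by rw [hq]; exact pow_pos hℓ0 _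
  rw [← hm] at hk ⊢
  rw [← hq] at hζ hA hAA
  have hζ0 : ζ ≠ 0 := hζ.ne_zero hq0.ne'
  set w : ℂ := starRingEnd ℂ ζ with hw
  have hnorm : ‖ζ‖ = 1 := hζ.norm'_eq_one hq0.ne'
  have hwζ : w * ζ = 1 := by
    rw [hw, mul_comm, Complex.mul_conj, Complex.normSq_eq_norm_sq, hnorm]
    norm_num
  have hζw : ζ * w = 1 := by rw [mul_comm]; exact hwζ
  have hwq : w ^ q = 1 := by rw [hw, ← map_pow, hζ.pow_eq_one, map_one]
  have hwinv : w = ζ⁻¹ := eq_inv_of_mul_eq_one_left hwζ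
  have hwprim : IsPrimitiveRoot w q := by rw [hwinv]; exact hζ.inv
  -- Fourier inversion
  have hinv : ∀ x, ∀ t < q, (q : ℂ) * (a x t : ℂ) = ∑ j ∈ range q, A x j * w ^ (j * t) := by
    intro x t ht
    have h1 : ∀ j, A x j * w ^ (j * t) = ∑ s ∈ range q, (a x s : ℂ) * (ζ ^ s * w ^ t) ^ j := by
      intro j
      rw [hA, Finset.sum_mul]
      refine Finset.sum_congr rfl fun s _ => ?_
      rw [mul_pow, ← pow_mul, ← pow_mul, mul_comm j t]
      ring
    rw [Finset.sum_congr rfl fun j _ => h1 j, Finset.sum_comm]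
    have h2 : ∀ s ∈ range q, ∑ j ∈ range q, (a x s : ℂ) * (ζ ^ s * w ^ t) ^ j =
        if s = t then (q : ℂ) * (a x t : ℂ) else 0 := by
      intro s hs
      rw [← Finset.mul_sum]
      by_cases hst : s = t
      · subst hst
        rw [if_pos rfl, ← mul_pow, hζw, one_pow]
        simp [mul_comm]
      · rw [if_neg hst, geo_zero, mul_zero]
        · rw [mul_pow, ← pow_mul, ← pow_mul, mul_comm s q, mul_comm t q, pow_mul, pow_mul,
            hζ.pow_eq_one, hwq, one_pow, one_pow, mul_one]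
        · intro h3
          apply hst
          have h4 : ζ ^ s = ζ ^ t := by
            have h5 : ζ ^ s * w ^ t * ζ ^ t = ζ ^ t := by rw [h3, one_mul]
            rw [mul_assoc, ← mul_pow, hwζ, one_pow, mul_one] at h5
            exact h5
          exact hζ.pow_inj (mem_range.mp hs) ht h4
    rw [Finset.sum_congr rfl h2, Finset.sum_ite_eq' , if_pos (mem_range.mpr ht)]
  -- the numbers prime to ℓ
  set J : Finset ℕ := (range q).filter (fun j => j.Coprime ℓ) with hJ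
  have hJc : J.card = m * (ℓ - 1) := by
    rw [hJ, hq, hm]; exact card_cop ℓ n hn
  have hlt : ∀ s ∈ range ℓ, k + m * s < q := by
    intro s hs
    rw [hqm]
    have := mem_range.mp hs
    calc k + m * s < m + m * s := by omega
      _ = m * (s + 1) := by ring
      _ ≤ m * ℓ := Nat.mul_le_mul_left m (by omega)
  have hwdvd : ∀ j, ¬ j.Coprime ℓ → ∀ s, w ^ (j * (k + m * s)) = w ^ (j * k) := by
    intro j hj s
    have hd : ℓ ∣ j := by
      by_contra h1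
      exact hj (((Nat.Prime.coprime_iff_not_dvd hℓ.out).mpr h1).symm)
    obtain ⟨c, rfl⟩ := hd
    have : ℓ * c * (k + m * s) = ℓ * c * k + q * (c * s) := by rw [hqm]; ring
    rw [this, pow_add, pow_mul w q, hwq, one_pow, mul_one]
  have hD : ∀ x, ∀ s ∈ range ℓ, ∀ s' ∈ range ℓ,
      (q : ℂ) * ((a x (k + m * s) : ℂ) - a x (k + m * s')) =
        ∑ j ∈ J, A x j * (w ^ (j * (k + m * s)) - w ^ (j * (k + m * s'))) := by
    intro x s hs s' hs'
    rw [mul_sub, hinv x _ (hlt s hs), hinv x _ (hlt s' hs'), ← Finset.sum_sub_distrib, hJ,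
      Finset.sum_filter]
    refine Finset.sum_congr rfl fun j _ => ?_
    by_cases hj : j.Coprime ℓ
    · rw [if_pos hj]; ring
    · rw [if_neg hj, hwdvd j hj, hwdvd j hj, sub_self]
  have hD' : ∀ x, ∀ s ∈ range ℓ, ∀ s' ∈ range ℓ,
      (q : ℂ) * ((a x (k + m * s) : ℂ) - a x (k + m * s')) =
        ∑ j ∈ J, starRingEnd ℂ (A x j) * (ζ ^ (j * (k + m * s)) - ζ ^ (j * (k + m * s'))) := by
    intro x s hs s' hs'
    have h1 := congrArg (starRingEnd ℂ) (hD x s hs s' hs')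
    rw [map_sum] at h1
    have h2 : starRingEnd ℂ ((q : ℂ) * ((a x (k + m * s) : ℂ) - a x (k + m * s'))) =
        (q : ℂ) * ((a x (k + m * s) : ℂ) - a x (k + m * s')) := by
      rw [map_mul, map_sub, map_natCast, map_intCast, map_intCast]
    rw [h2] at h1
    rw [h1]
    refine Finset.sum_congr rfl fun j _ => ?_
    rw [map_mul, map_sub, map_pow, map_pow, hw, Complex.conj_conj]
  -- sums over the coset
  have hζm : IsPrimitiveRoot (ζ ^ m) ℓ := hζ.pow hq0 hqm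
  have hwm : IsPrimitiveRoot (w ^ m) ℓ := hwprim.pow hq0 hqm
  have hcos : ∀ z : ℂ, IsPrimitiveRoot z ℓ → ∀ j ∈ J, z ^ j ≠ 1 := by
    intro z hz j hj h1
    have h2 := (hz.pow_eq_one_iff_dvd j).mp h1
    have h3 := (mem_filter.mp hj).2
    exact (Nat.Prime.coprime_iff_not_dvd hℓ.out).mp h3.symm h2
  have hsumw : ∀ j ∈ J, ∑ s ∈ range ℓ, w ^ (j * (k + m * s)) = 0 := by
    intro j hj
    have h1 : ∀ s, w ^ (j * (k + m * s)) = w ^ (j * k) * ((w ^ m) ^ j) ^ s := by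
      intro s
      rw [← pow_mul, ← pow_mul, ← pow_add]
      congr 1
      ring
    rw [Finset.sum_congr rfl fun s _ => h1 s, ← Finset.mul_sum, geo_zero, mul_zero]
    · rw [← pow_mul, mul_comm j ℓ, pow_mul, hwm.pow_eq_one, one_pow]
    · exact hcos _ hwm j hj
  have hG0 : ∀ j ∈ J, ∀ j' ∈ J, ∑ s ∈ range ℓ, ∑ s' ∈ range ℓ,
      (w ^ (j * (k + m * s)) - w ^ (j * (k + m * s'))) *
        (ζ ^ (j' * (k + m * s)) - ζ ^ (j' * (k + m * s'))) =
      2 * ℓ * ∑ s ∈ range ℓ, w ^ (j * (k + m * s)) * ζ ^ (j' * (k + m * s)) := by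
    intro j hj j' hj'
    rw [diff_sums ℓ (fun s => w ^ (j * (k + m * s))) (fun s => ζ ^ (j' * (k + m * s))),
      hsumw j hj]
    ring
  have hG1 : ∀ j ∈ J, ∀ j' ∈ J, ¬ j ≡ j' [MOD ℓ] →
      ∑ s ∈ range ℓ, w ^ (j * (k + m * s)) * ζ ^ (j' * (k + m * s)) = 0 := by
    intro j hj j' hj' hjj
    have h1 : ∀ s, w ^ (j * (k + m * s)) * ζ ^ (j' * (k + m * s)) =
        w ^ (j * k) * ζ ^ (j' * k) * ((w ^ m) ^ j * (ζ ^ m) ^ j') ^ s := by
      intro s
      rw [mul_pow, ← pow_mul, ← pow_mul, ← pow_mul, ← pow_mul]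
      have e1 : j * (k + m * s) = j * k + m * j * s := by ring
      have e2 : j' * (k + m * s) = j' * k + m * j' * s := by ring
      rw [e1, e2, pow_add, pow_add]
      ring
    rw [Finset.sum_congr rfl fun s _ => h1 s, ← Finset.mul_sum, geo_zero, mul_zero]
    · rw [mul_pow, pow_right_comm (w ^ m) j ℓ, pow_right_comm (ζ ^ m) j' ℓ,
        hwm.pow_eq_one, hζm.pow_eq_one, one_pow, one_pow, mul_one]
    · intro h2
      apply hjj
      have h3 : (ζ ^ m) ^ j = (ζ ^ m) ^ j' := by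
        have h4 : (ζ ^ m) ^ j * ((w ^ m) ^ j * (ζ ^ m) ^ j') = (ζ ^ m) ^ j := by
          rw [h2, mul_one]
        have h5 : (ζ ^ m) ^ j * (w ^ m) ^ j = 1 := by
          rw [← mul_pow, ← mul_pow, hζw, one_pow, one_pow]
        rw [← mul_assoc, h5, one_mul] at h4
        exact h4.symm
      have h6 : (ζ ^ m) ^ (j % ℓ) = (ζ ^ m) ^ (j' % ℓ) := by
        have e1 := pow_mod_orderOf (ζ ^ m) j
        have e2 := pow_mod_orderOf (ζ ^ m) j'
        rw [← hζm.eq_orderOf] at e1 e2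
        rw [e1, e2, h3]
      exact hζm.pow_inj (Nat.mod_lt _ hℓ0) (Nat.mod_lt _ hℓ0) h6
  -- assembly
  have hsq : ∀ x, ∀ s ∈ range ℓ, ∀ s' ∈ range ℓ,
      (q : ℂ) ^ 2 * ((a x (k + m * s) : ℂ) - a x (k + m * s')) ^ 2 =
      ∑ p ∈ J ×ˢ J, (A x p.1 * starRingEnd ℂ (A x p.2)) *
        ((w ^ (p.1 * (k + m * s)) - w ^ (p.1 * (k + m * s'))) *
        (ζ ^ (p.2 * (k + m * s)) - ζ ^ (p.2 * (k + m * s')))) := by
    intro x s hs s' hs'
    have h1 : (q : ℂ) ^ 2 * ((a x (k + m * s) : ℂ) - a x (k + m * s')) ^ 2 =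
        ((q : ℂ) * ((a x (k + m * s) : ℂ) - a x (k + m * s'))) *
        ((q : ℂ) * ((a x (k + m * s) : ℂ) - a x (k + m * s'))) := by ring
    rw [h1]
    nth_rewrite 1 [hD x s hs s' hs']
    rw [hD' x s hs s' hs', Finset.sum_mul_sum, Finset.sum_product]
    refine Finset.sum_congr rfl fun j _ => Finset.sum_congr rfl fun j' _ => ?_
    ring
  have hmain : (q : ℂ) ^ 2 * ∑ x, ∑ s ∈ range ℓ, ∑ s' ∈ range ℓ,
      ((a x (k + m * s) : ℂ) - a x (k + m * s')) ^ 2 = (m * (ℓ - 1) : ℕ) * (q * K * (2 * ℓ * ℓ)) := by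
    have h1 : (q : ℂ) ^ 2 * ∑ x, ∑ s ∈ range ℓ, ∑ s' ∈ range ℓ,
        ((a x (k + m * s) : ℂ) - a x (k + m * s')) ^ 2 =
        ∑ x, ∑ t ∈ range ℓ ×ˢ range ℓ, ∑ p ∈ J ×ˢ J, (A x p.1 * starRingEnd ℂ (A x p.2)) *
        ((w ^ (p.1 * (k + m * t.1)) - w ^ (p.1 * (k + m * t.2))) *
        (ζ ^ (p.2 * (k + m * t.1)) - ζ ^ (p.2 * (k + m * t.2)))) := by
      rw [Finset.mul_sum]
      refine Finset.sum_congr rfl fun x _ => ?_
      rw [Finset.mul_sum, Finset.sum_product]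
      refine Finset.sum_congr rfl fun s hs => ?_
      rw [Finset.mul_sum]
      exact Finset.sum_congr rfl fun s' hs' => hsq x s hs s' hs'
    rw [h1, swap_sums (range ℓ ×ˢ range ℓ) (J ×ˢ J)
      (fun x p => A x p.1 * starRingEnd ℂ (A x p.2))
      (fun t p => (w ^ (p.1 * (k + m * t.1)) - w ^ (p.1 * (k + m * t.2))) *
        (ζ ^ (p.2 * (k + m * t.1)) - ζ ^ (p.2 * (k + m * t.2))))]
    have h2 : ∀ p ∈ J ×ˢ J, (∑ x, A x p.1 * starRingEnd ℂ (A x p.2)) *
        ∑ t ∈ range ℓ ×ˢ range ℓ, (w ^ (p.1 * (k + m * t.1)) - w ^ (p.1 * (k + m * t.2))) *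
        (ζ ^ (p.2 * (k + m * t.1)) - ζ ^ (p.2 * (k + m * t.2))) =
        if p.1 = p.2 then (q * K * (2 * ℓ * ℓ) : ℂ) else 0 := by
      intro p hp
      obtain ⟨hp1, hp2⟩ := mem_product.mp hp
      rw [Finset.sum_product, hG0 p.1 hp1 p.2 hp2]
      have hc1 := (mem_filter.mp hp1).2
      have hc2 := (mem_filter.mp hp2).2
      have hl1 := mem_range.mp (mem_filter.mp hp1).1
      have hl2 := mem_range.mp (mem_filter.mp hp2).1
      by_cases hmod : p.1 ≡ p.2 [MOD ℓ]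
      · rw [hAA p.1 p.2 hc1 hc2 hmod]
        by_cases heq : p.1 = p.2
        · rw [if_pos heq, if_pos (by rw [heq])]
          have h3 : ∀ s, w ^ (p.1 * (k + m * s)) * ζ ^ (p.2 * (k + m * s)) = 1 := by
            intro s
            rw [heq, ← mul_pow, hwζ, one_pow]
          rw [Finset.sum_congr rfl fun s _ => h3 s]
          simp only [Finset.sum_const, Finset.card_range, nsmul_eq_mul, mul_one]
          rw [hq]
          push_cast
          ring
        · rw [if_neg heq, if_neg, zero_mul]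
          intro h4
          exact heq (Nat.ModEq.eq_of_lt_of_lt h4 hl1 hl2)
      · rw [hG1 p.1 hp1 p.2 hp2 hmod, mul_zero, mul_zero, if_neg]
        intro h4
        exact hmod (by rw [h4])
    rw [Finset.sum_congr rfl h2, Finset.sum_product]
    have h5 : ∀ j ∈ J, ∑ j' ∈ J, (if (j, j').1 = (j, j').2 then (q * K * (2 * ℓ * ℓ) : ℂ) else 0) =
        q * K * (2 * ℓ * ℓ) := by
      intro j hj
      simp only [Finset.sum_ite_eq, if_pos hj]
    rw [Finset.sum_congr rfl h5, Finset.sum_const, hJc, nsmul_eq_mul]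
  have hqc : (q : ℂ) ≠ 0 := by exact_mod_cast hq0.ne'
  have hmc : (m : ℂ) ≠ 0 := by exact_mod_cast hm0.ne'
  have hℓc : (ℓ : ℂ) ≠ 0 := by exact_mod_cast hℓ0.ne'
  have hcast : ((m * (ℓ - 1) : ℕ) : ℂ) = (m : ℂ) * ((ℓ : ℂ) - 1) := by
    rw [Nat.cast_mul, Nat.cast_sub hℓ1.le, Nat.cast_one]
  have hqmc : (q : ℂ) = m * ℓ := by rw [hqm]; push_cast; ring
  rw [hcast] at hmain
  have hfin : (q : ℂ) ^ 2 * ∑ x, ∑ s ∈ range ℓ, ∑ s' ∈ range ℓ,
      ((a x (k + m * s) : ℂ) - a x (k + m * s')) ^ 2 =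
      (q : ℂ) ^ 2 * (2 * ℓ * ((ℓ : ℂ) - 1) * K) := by
    rw [hmain, hqmc]; ring
  exact mul_left_cancel₀ (pow_ne_zero 2 hqc) hfin

end Pool.Agent.PP.C2.H86
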