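import Pool.Agent.Helper57_C2.Stmts
import Pool.Agent.Helper3_K9.Psi
import Pool.Agent.Helper11_K9.Base
import Pool.Agent.Helper86_K9.SEC
import Pool.Agent.Helper46_PP.Alg
import Pool.Agent.Helper20_PP.Rst

/-!
# Row C2_DTN (problem MP_6a3f1a_al): the vectors of a block with a defect group of order `ℓ`
-/

open scoped BigOperators

noncomputable section

namespace Pool.Agent.PP.C2.H86

open Pool.Agent.Helper51_AWC Pool.Agent.Helper79_WRA Pool.Agent.PP Pool.Agent.PP.KF
open Pool.Agent.PP.K9 Pool.Agent.PP.C2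

attribute [local instance] Ideal.Quotient.field

/-- the centraliser of a cyclic group -/
theorem cent_zpowers {G : Type} [Group G] (v : G) :
    Subgroup.centralizer ((Subgroup.zpowers v : Subgroup G) : Set G) = Cu v := by
  ext x
  rw [Subgroup.mem_centralizer_iff, Subgroup.mem_centralizer_iff]
  constructor
  · intro h y hy
    rw [Set.mem_singleton_iff.mp hy]
    exact h v (Subgroup.mem_zpowers v)
  · intro h y hy
    obtain ⟨k, rfl⟩ := Subgroup.mem_zpowers_iff.mp hy
    have h1 : Commute v x := h v rfl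
    exact (h1.zpow_left k).eq

/-- residues under automorphisms -/
theorem res_auto {C : Type} [Group C] [Finite C] {M : Ideal (integralClosure ℤ ℂ)} [M.IsMaximal]
    (c : C ≃* C) {b : C → FF M} (hb : IsCl b) {θ : C → ℂ} (hθ : θ ∈ Irr C) :
    res M (fun y => b (c y)) θ = res M b (fun y => θ (c.symm y)) := by
  have h1 := K9.H3.res_push (M := M) (p := c.symm.toMonoidHom) c.symm.surjective hb hθ
  have h2 : H75.push c.symm.toMonoidHom b = fun y => b (c y) := by
    funext y
    change (∑ᶠ (x : C) (_ : c.symm x = y), b x) = b (c y)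
    have h3 : ∀ x : C, (∑ᶠ _ : c.symm x = y, b x) = ∑ᶠ _ : x = c y, b x := by
      intro x
      have e : (c.symm x = y) = (x = c y) := by
        apply propext
        constructor
        · intro h; rw [← h, MulEquiv.apply_symm_apply]
        · intro h; rw [h, MulEquiv.symm_apply_apply]
      exact finsum_congr_Prop e (fun _ => rfl)
    rw [finsum_congr h3, finsum_eq_single _ (c y) (fun x hx => ?_)]
    · simp
    · simp [hx]
  rw [h2] at h1
  exact h1

/-- powers prime to `ℓ` generate -/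
theorem gen_of {ℓ : ℕ} [hℓ : Fact ℓ.Prime] {G : Type} [Group G] {v : G} (hv : orderOf v = ℓ)
    {j : ℕ} (hj : j ∈ Finset.Ico 1 ℓ) : ∃ m : ℕ, (v ^ j) ^ m = v := by
  rw [Finset.mem_Ico] at hj
  have hc : Nat.Coprime j ℓ := by
    rw [Nat.coprime_comm, Nat.Prime.coprime_iff_not_dvd hℓ.out]
    intro hd
    exact absurd (Nat.le_of_dvd (by omega) hd) (by omega)
  obtain ⟨m, hm⟩ := Nat.exists_mul_mod_eq_one_of_coprime hc hℓ.out.one_lt
  refine ⟨m, ?_⟩
  rw [← pow_mul, ← pow_mod_orderOf, hv, hm.2, pow_one]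

/-- **Row C2_DTN** -/
theorem dtn (htau : TauStmt) : DtnStmt := by
  intro ℓ hℓ M _ hM G H _ _ _ _ e v γ T hI π hQ κ hκ hE j hj j' hj'
  have hcen := cent_zpowers v
  have hgam : Bk (Cu v) γ := hcen ▸ hI.gam
  set b : Cu v → FF M := fun t => γ t with hb
  have hblk : IsBlk b := hgam.blk
  have hbcl : IsCl b := hblk.1.1
  have hQn : Qn ℓ v π := ⟨hQ.ord, hQ.sur, hQ.ker⟩
  -- `κ`
  obtain ⟨hpsi, hpsi'⟩ := K9.H3.psi M (Cu v) H π hQ.sur b hbcl
  have hκm : κ ∈ IrrE M (H75.push π b) := by rw [hE]; rfl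
  have hκI : κ ∈ Irr H := hκm.1
  have hκπ : (fun a => κ (π a)) ∈ IrrE M b := by
    rw [hpsi] at hκm
    exact hκm.2
  -- automorphisms
  have key : ∀ t : G, (∀ h ∈ Subgroup.zpowers v, t * h * t⁻¹ ∈ Subgroup.zpowers v) →
      ∃ τ : H ≃* H, (∀ (w : G) (p : H → ℂ), ∀ χ ∈ Irr G,
        Av ℓ π (t * w * t⁻¹) p χ = Av ℓ π w (fun h => p (τ h)) χ) ∧
        ((∀ x, γ (t * x * t⁻¹) = γ x) → (fun h => κ (τ h)) = κ) ∧
        ((fun h => κ (τ h)) = κ → ∀ x, γ (t * x * t⁻¹) = γ x) := by
    intro t ht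
    obtain ⟨τ, hτ1, hτ2, hτ3⟩ := htau ℓ ℓ G H v π hQn t (ht v (Subgroup.mem_zpowers v))
    let c0 : Cu v →* Cu v :=
      { toFun := fun s => ⟨t * (s : G) * t⁻¹, hτ2 s⟩
        map_one' := Subtype.ext (by simp)
        map_mul' := fun x y => Subtype.ext (by simp) }
    have hc0 : Function.Injective c0 := by
      intro x y hxy
      have h1 : t * (x : G) * t⁻¹ = t * (y : G) * t⁻¹ := congrArg Subtype.val hxy
      exact Subtype.ext (mul_left_cancel (mul_right_cancel h1))
    let c : Cu v ≃* Cu v := MulEquiv.ofBijective c0 (Finite.injective_iff_bijective.mp hc0)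
    have hcv : ∀ s : Cu v, ((c s : Cu v) : G) = t * (s : G) * t⁻¹ := fun s => rfl
    have hcπ : ∀ s : Cu v, π (c s) = τ (π s) := fun s => hτ1 s (c s) (hcv s)
    have hcπ' : ∀ s : Cu v, π (c.symm s) = τ.symm (π s) := by
      intro s
      have := hcπ (c.symm s)
      rw [MulEquiv.apply_symm_apply] at this
      rw [this, MulEquiv.symm_apply_apply]
    have hoff : ∀ x, x ∉ Cu v → t * x * t⁻¹ ∉ Cu v := by
      intro x hx h1
      apply hx
      obtain ⟨s, hs⟩ := c.surjective ⟨t * x * t⁻¹, h1⟩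
      have h2 : t * (s : G) * t⁻¹ = t * x * t⁻¹ := congrArg Subtype.val hs
      have h3 : (s : G) = x := mul_left_cancel (mul_right_cancel h2)
      rw [← h3]
      exact s.2
    refine ⟨τ, hτ3, ?_, ?_⟩
    · intro hst
      have hbc : (fun y => b (c y)) = b := by
        funext y
        change γ (t * (y : G) * t⁻¹) = γ y
        exact hst y
      have hτI : (fun h => κ (τ h)) ∈ Irr H :=
        K9.H3.irr_infl (p := τ.toMonoidHom) τ.surjective hκI
      have hI1 : (fun a => (fun h => κ (τ h)) (π a)) ∈ Irr (Cu v) :=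
        K9.H3.irr_infl hQ.sur hτI
      have h1 := res_auto c hbcl hI1
      have h2 : (fun y => (fun a => (fun h => κ (τ h)) (π a)) (c.symm y)) =
          fun a => κ (π a) := by
        funext y
        change κ (τ (π (c.symm y))) = κ (π y)
        rw [hcπ', MulEquiv.apply_symm_apply]
      rw [h2, hbc, hκπ.2] at h1
      have h3 : (fun h => κ (τ h)) ∈ IrrE M (H75.push π b) := by
        rw [hpsi]
        exact ⟨hτI, hI1, h1⟩
      rw [hE] at h3
      exact h3
    · intro hst
      have hst' : ∀ h, κ (τ.symm h) = κ h := by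
        intro h
        have := congrFun hst (τ.symm h)
        change κ (τ (τ.symm h)) = κ (τ.symm h) at this
        rw [MulEquiv.apply_symm_apply] at this
        exact this.symm
      have h1 := res_auto c hbcl hκπ.1
      have h2 : (fun y => (fun a => κ (π a)) (c.symm y)) = fun a => κ (π a) := by
        funext y
        change κ (π (c.symm y)) = κ (π y)
        rw [hcπ', hst']
      rw [h2, hκπ.2] at h1
      have hb2 : IsBlk (fun y => b (c y)) := H20.IsBlk_equiv c hblk
      have h3 : res M (mulF b (fun y => b (c y))) (fun a => κ (π a)) = 1 := by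
        have := Fintype.ofFinite (Cu v)
        rw [H50.res_mul hbcl hb2.1.1 hκπ.1, hκπ.2, h1, mul_one]
      have h4 : mulF b (fun y => b (c y)) ≠ 0 := by
        intro h5
        have := Fintype.ofFinite (Cu v)
        rw [h5, H50.res_zero] at h3
        exact zero_ne_one h3
      have h5 : mulF b (fun y => b (c y)) = b := (hblk.2.2 _ hb2.1).resolve_right h4
      have h6 : mulF (fun y => b (c y)) b = (fun y => b (c y)) := by
        refine (hb2.2.2 _ hblk.1).resolve_right ?_
        rw [← H46.mulF_comm hbcl]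
        exact h4
      have h7 : b = fun y => b (c y) :=
        h5.symm.trans ((H46.mulF_comm hbcl _).trans h6)
      intro x
      by_cases hx : x ∈ Cu v
      · exact (congrFun h7 ⟨x, hx⟩).symm
      · rw [hgam.off x hx, hgam.off _ (hoff x hx)]
  have hTs : ∀ t ∈ T, ∀ x, γ (t * x * t⁻¹) = γ x := by
    intro t ht
    rw [hI.stb] at ht
    exact ht.2
  refine ⟨?_, ?_⟩
  · rintro ⟨t, ht, hjj⟩ χ hχ
    have htn : t ∈ Subgroup.normalizer ((Subgroup.zpowers v : Subgroup G) : Set G) := by
      rw [hI.stb] at ht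
      exact ht.1
    obtain ⟨τ, h1, h2, -⟩ := key t (fun h hh => (Subgroup.mem_normalizer_iff.mp htn h).mp hh)
    rw [hjj, h1 _ _ χ hχ, h2 (hTs t ht)]
  · intro hno
    have hvj : ∀ i ∈ Finset.Ico 1 ℓ, v ^ i ∈ Subgroup.zpowers v ∧ v ^ i ≠ 1 := by
      intro i hi
      refine ⟨Subgroup.npow_mem_zpowers v i, ?_⟩
      intro h0
      rw [Finset.mem_Ico] at hi
      have := orderOf_dvd_of_pow_eq_one h0
      rw [hQ.ord] at this
      exact absurd (Nat.le_of_dvd (by omega) this) (by omega)
    by_cases hc : ∃ t : G, v ^ j' = t * v ^ j * t⁻¹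
    · obtain ⟨t, hjj⟩ := hc
      obtain ⟨m, hm⟩ := gen_of hQ.ord hj
      obtain ⟨m', hm'⟩ := gen_of hQ.ord hj'
      have hconj : ∀ (g x : G) (k : ℕ), (g * x * g⁻¹) ^ k = g * x ^ k * g⁻¹ :=
        fun g x k => conj_pow
      have hconjz : ∀ (g x : G) (k : ℤ), (g * x * g⁻¹) ^ k = g * x ^ k * g⁻¹ :=
        fun g x k => conj_zpow
      have ht1 : t * v * t⁻¹ ∈ Subgroup.zpowers v := by
        have h1 : t * v * t⁻¹ = (v ^ j') ^ m := by
          rw [hjj, hconj, hm]
        rw [h1, ← pow_mul]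
        exact Subgroup.npow_mem_zpowers v _
      have ht2 : t⁻¹ * v * t ∈ Subgroup.zpowers v := by
        have h1 : t⁻¹ * v ^ j' * t = v ^ j := by rw [hjj]; group
        have h2 : t⁻¹ * v * t = (v ^ j) ^ m' := by
          have h3 := hconj t⁻¹ (v ^ j') m'
          rw [inv_inv, h1, hm'] at h3
          exact h3.symm
        rw [h2, ← pow_mul]
        exact Subgroup.npow_mem_zpowers v _
      have hn1 : ∀ h ∈ Subgroup.zpowers v, t * h * t⁻¹ ∈ Subgroup.zpowers v := by
        intro h hh
        obtain ⟨k, rfl⟩ := Subgroup.mem_zpowers_iff.mp hh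
        rw [← hconjz]
        exact Subgroup.zpow_mem _ ht1 k
      have hn2 : ∀ h ∈ Subgroup.zpowers v, t⁻¹ * h * t ∈ Subgroup.zpowers v := by
        intro h hh
        obtain ⟨k, rfl⟩ := Subgroup.mem_zpowers_iff.mp hh
        have h3 := hconjz t⁻¹ v k
        rw [inv_inv] at h3
        rw [← h3]
        exact Subgroup.zpow_mem _ ht2 k
      have htn : t ∈ Subgroup.normalizer ((Subgroup.zpowers v : Subgroup G) : Set G) := by
        rw [Subgroup.mem_normalizer_iff]
        intro h
        refine ⟨hn1 h, fun hh => ?_⟩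
        have h3 := hn2 _ hh
        have h4 : t⁻¹ * (t * h * t⁻¹) * t = h := by group
        rw [h4] at h3
        exact h3
      obtain ⟨τ, h1, -, h2⟩ := key t hn1
      have hne : (fun h => κ (τ h)) ≠ κ := by
        intro h3
        apply hno
        refine ⟨t, ?_, hjj⟩
        rw [hI.stb]
        exact ⟨htn, h2 h3⟩
      have hτI : (fun h => κ (τ h)) ∈ Irr H :=
        K9.H3.irr_infl (p := τ.toMonoidHom) τ.surjective hκI
      have hτR : Rc ℓ (fun h => κ (τ h)) := by
        refine ⟨fun x y => ?_, fun x hx => ?_⟩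
        · change κ (τ (y * x * y⁻¹)) = κ (τ x)
          rw [map_mul, map_mul, map_inv, hκ.cl]
        · apply hκ.sg
          intro h3
          apply hx
          unfold Reg at h3 ⊢
          rw [MulEquiv.orderOf_eq] at h3
          exact h3
      have h5 := (K9.H86.sec ℓ G H v π hQ κ (fun h => κ (τ h)) hκ hτR (v ^ j) (hvj j hj).1
        (hvj j hj).2).1
      rw [K9.H11.ipn_ne hτI hκI hne, mul_zero] at h5
      rw [← h5]
      refine finsum_mem_congr rfl fun χ hχ => ?_
      rw [hjj, h1 _ _ χ hχ]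
    · exact (K9.H86.sec ℓ G H v π hQ κ κ hκ hκ (v ^ j) (hvj j hj).1 (hvj j hj).2).2.2
        (v ^ j') (hvj j' hj').1 (hvj j' hj').2 hc

end Pool.Agent.PP.C2.H86
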